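import Mathlib

/-!
A rack bialgebra of dimension five which is not a Yetter-Drinfel'd rack over any bialgebra.
-/

set_option autoImplicit false

namespace Pool.Agent.Results.MP_abbe90_al.NotYetterDrinfeld

open TensorProduct Coalgebra

universe u v w

/-- A rack bialgebra structure on the coalgebra `C`: a group-like element `one` and a morphism of
coalgebras `op : C ⊗ C → C`, written `x ◁ y = op (x ⊗ y)`, with
`(x ◁ y) ◁ z = (x ◁ z₁) ◁ (y ◁ z₂)`, `x ◁ 1 = x` and `1 ◁ x = ε(x) 1`. -/
structure RackBialgebra (k : Type u) (C : Type v) [Field k] [AddCommGroup C] [Module k C]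
    [Coalgebra k C] where
  one : C
  comul_one : comul (R := k) one = one ⊗ₜ[k] one
  counit_one : counit (R := k) one = 1
  op : C ⊗[k] C →ₗc[k] C
  distrib : ∀ x y z : C, op (op (x ⊗ₜ[k] y) ⊗ₜ[k] z) =
    op (TensorProduct.map ((op : C ⊗[k] C →ₗ[k] C) ∘ₗ TensorProduct.mk k C C x)
      ((op : C ⊗[k] C →ₗ[k] C) ∘ₗ TensorProduct.mk k C C y) (comul (R := k) z))
  op_one : ∀ x, op (x ⊗ₜ[k] one) = x
  one_op : ∀ x, op (one ⊗ₜ[k] x) = counit (R := k) x • one

/-- The data making the rack bialgebra `C` a Yetter-Drinfel'd rack over the bialgebra `H`: a right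
action `act` of `H` on `C` which is a morphism of coalgebras `C ⊗ H → C`, and a morphism of
coalgebras `q : C → H` with `q 1 = 1`, such that `a ◁ b = a · q(b)` and
`h₁ q(a · h₂) = q(a) h`. -/
structure YDRack {k : Type u} {C : Type v} [Field k] [AddCommGroup C] [Module k C]
    [Coalgebra k C] (X : RackBialgebra k C) (H : Type w) [Ring H] [Bialgebra k H] where
  act : C ⊗[k] H →ₗc[k] C
  act_one : ∀ x : C, act (x ⊗ₜ[k] 1) = x
  act_mul : ∀ (x : C) (h h' : H), act (x ⊗ₜ[k] (h * h')) = act (act (x ⊗ₜ[k] h) ⊗ₜ[k] h')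
  q : C →ₗc[k] H
  q_one : q X.one = 1
  op_eq : ∀ a b : C, X.op (a ⊗ₜ[k] b) = act (a ⊗ₜ[k] q b)
  yd : ∀ (a : C) (h : H), LinearMap.mul' k H (TensorProduct.map LinearMap.id
    ((q : C →ₗ[k] H) ∘ₗ (act : C ⊗[k] H →ₗ[k] C) ∘ₗ TensorProduct.mk k C H a)
      (comul (R := k) h)) = q a * h

variable (k : Type u) [Field k]

/-- The underlying space of the example, of dimension five. -/
def Ex : Type u := Fin 5 → k

instance : AddCommGroup (Ex k) := inferInstanceAs (AddCommGroup (Fin 5 → k))

instance : Module k (Ex k) := inferInstanceAs (Module k (Fin 5 → k))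

/-- The basis of the example. -/
noncomputable def bas : Module.Basis (Fin 5) k (Ex k) := Pi.basisFun k (Fin 5)

/-- The basis vectors. -/
noncomputable def e (i : Fin 5) : Ex k := bas k i

/-- The comultiplication of the basis vectors. -/
noncomputable def cm : Fin 5 → Ex k ⊗[k] Ex k :=
  ![e k 0 ⊗ₜ e k 0, e k 0 ⊗ₜ e k 1 + e k 1 ⊗ₜ e k 0, e k 0 ⊗ₜ e k 2 + e k 2 ⊗ₜ e k 0,
    e k 0 ⊗ₜ e k 3 + e k 3 ⊗ₜ e k 0, e k 0 ⊗ₜ e k 4 + e k 4 ⊗ₜ e k 0 + e k 2 ⊗ₜ e k 3]

/-- The products of the basis vectors. -/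
noncomputable def tab : Fin 5 → Fin 5 → Ex k :=
  ![![e k 0, 0, 0, 0, 0], ![e k 1, 0, e k 2, - e k 3, 0], ![e k 2, - e k 2, 0, 0, 0],
    ![e k 3, e k 3, 0, 0, 0], ![e k 4, 0, 0, 0, 0]]

noncomputable instance : CoalgebraStruct k (Ex k) where
  comul := (bas k).constr k (cm k)
  counit := (bas k).constr k ![1, 0, 0, 0, 0]

theorem comul_e (i : Fin 5) : comul (R := k) (e k i) = cm k i :=
  (bas k).constr_basis k _ i

theorem counit_e (i : Fin 5) : counit (R := k) (e k i) = (![1, 0, 0, 0, 0] : Fin 5 → k) i :=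
  (bas k).constr_basis k _ i

noncomputable instance : Coalgebra k (Ex k) where
  coassoc := by
    refine (bas k).ext fun i => ?_
    change TensorProduct.assoc k _ _ _ (comul.rTensor _ (comul (e k i)))
      = comul.lTensor _ (comul (e k i))
    rw [comul_e]
    fin_cases i <;> simp [cm, comul_e, tmul_add, add_tmul] <;> abel
  rTensor_counit_comp_comul := by
    refine (bas k).ext fun i => ?_
    change counit.rTensor _ (comul (e k i)) = TensorProduct.mk k _ _ 1 (e k i)
    rw [comul_e]
    fin_cases i <;> simp [cm, counit_e]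
  lTensor_counit_comp_comul := by
    refine (bas k).ext fun i => ?_
    change counit.lTensor _ (comul (e k i)) = (TensorProduct.mk k _ _).flip 1 (e k i)
    rw [comul_e]
    fin_cases i <;> simp [cm, counit_e]

/-- The product of the example. -/
noncomputable def mulL : Ex k ⊗[k] Ex k →ₗ[k] Ex k :=
  TensorProduct.lift ((bas k).constr k fun i => (bas k).constr k (tab k i))

theorem mulL_e (i j : Fin 5) : mulL k (e k i ⊗ₜ e k j) = tab k i j := by
  unfold mulL e
  rw [TensorProduct.lift.tmul, Module.Basis.constr_basis, Module.Basis.constr_basis]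

theorem ext2 {N : Type*} [AddCommGroup N] [Module k N] (f g : Ex k ⊗[k] Ex k →ₗ[k] N)
    (h : ∀ i j, f (e k i ⊗ₜ e k j) = g (e k i ⊗ₜ e k j)) : f = g := by
  refine TensorProduct.ext ?_
  refine (bas k).ext fun i => (bas k).ext fun j => ?_
  exact h i j

/-- The product of the example as a morphism of coalgebras. -/
noncomputable def opL : Ex k ⊗[k] Ex k →ₗc[k] Ex k where
  toLinearMap := mulL k
  counit_comp := by
    refine ext2 k _ _ fun i j => ?_
    simp only [LinearMap.comp_apply, mulL_e]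
    fin_cases i <;> fin_cases j <;> simp [tab, counit_e]
  map_comp_comul := by
    refine ext2 k _ _ fun i j => ?_
    simp only [LinearMap.comp_apply, mulL_e, TensorProduct.comul_tmul, comul_e]
    fin_cases i <;> fin_cases j <;>
      (try simp [tab, cm, comul_e, tmul_add, add_tmul, mulL_e, tmul_neg, neg_tmul]) <;>
      (try abel)

/-- Right multiplication by a basis vector. -/
noncomputable def rr (l : Fin 5) : Ex k →ₗ[k] Ex k :=
  mulL k ∘ₗ (TensorProduct.mk k (Ex k) (Ex k)).flip (e k l)

theorem rr_e (i l : Fin 5) : rr k l (e k i) = tab k i l := mulL_e k i l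

/-- The right multiplications on the tensor square. -/
noncomputable def dd : Fin 5 → (Ex k ⊗[k] Ex k →ₗ[k] Ex k ⊗[k] Ex k) :=
  ![TensorProduct.map (rr k 0) (rr k 0),
    TensorProduct.map (rr k 0) (rr k 1) + TensorProduct.map (rr k 1) (rr k 0),
    TensorProduct.map (rr k 0) (rr k 2) + TensorProduct.map (rr k 2) (rr k 0),
    TensorProduct.map (rr k 0) (rr k 3) + TensorProduct.map (rr k 3) (rr k 0),
    TensorProduct.map (rr k 0) (rr k 4) + TensorProduct.map (rr k 4) (rr k 0)
      + TensorProduct.map (rr k 2) (rr k 3)]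

theorem rr_mul (l : Fin 5) : rr k l ∘ₗ mulL k = mulL k ∘ₗ dd k l := by
  refine ext2 k _ _ fun i j => ?_
  simp only [LinearMap.comp_apply, mulL_e]
  fin_cases l <;> fin_cases i <;> fin_cases j <;>
    simp [tab, dd, rr_e, mulL_e, tmul_neg, neg_tmul]

/-- The example as a rack bialgebra. -/
noncomputable def ex : RackBialgebra k (Ex k) where
  one := e k 0
  comul_one := comul_e k 0
  counit_one := counit_e k 0
  op := opL k
  distrib := by
    intro x y z
    have h : mulL k ∘ₗ TensorProduct.mk k _ _ (mulL k (x ⊗ₜ y)) =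
        mulL k ∘ₗ TensorProduct.map (mulL k ∘ₗ TensorProduct.mk k _ _ x)
          (mulL k ∘ₗ TensorProduct.mk k _ _ y) ∘ₗ comul (R := k) := by
      refine (bas k).ext fun l => ?_
      have h1 := LinearMap.congr_fun (rr_mul k l) (x ⊗ₜ y)
      have h2 : TensorProduct.map (mulL k ∘ₗ TensorProduct.mk k _ _ x)
          (mulL k ∘ₗ TensorProduct.mk k _ _ y) (cm k l) = dd k l (x ⊗ₜ y) := by
        fin_cases l <;> simp [cm, dd, rr]
      have h3 : comul (R := k) (bas k l) = cm k l := comul_e k l
      simp only [LinearMap.comp_apply]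
      rw [h3, h2]
      exact h1
    exact LinearMap.congr_fun h z
  op_one := by
    intro x
    have h : rr k 0 = LinearMap.id := by
      refine (bas k).ext fun i => ?_
      have h1 := rr_e k i 0
      change rr k 0 (e k i) = e k i
      rw [h1]
      fin_cases i <;> simp [tab]
    exact LinearMap.congr_fun h x
  one_op := by
    intro x
    have h : mulL k ∘ₗ TensorProduct.mk k _ _ (e k 0) =
        (LinearMap.toSpanSingleton k (Ex k) (e k 0)) ∘ₗ counit (R := k) := by
      refine (bas k).ext fun i => ?_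
      change mulL k (e k 0 ⊗ₜ e k i) = counit (R := k) (e k i) • e k 0
      rw [mulL_e, counit_e]
      fin_cases i <;> simp [tab]
    exact LinearMap.congr_fun h x

theorem noYD (H : Type w) [Ring H] [Bialgebra k H] (Y : YDRack (ex k) H) : False := by
  obtain ⟨act, act_one, act_mul, q, q_one, op_eq, yd⟩ := Y
  let A := q (e k 1)
  let U := q (e k 2)
  let V := q (e k 3)
  let B := q (e k 4)
  have hq0 : q (e k 0) = 1 := q_one
  have hcom : ∀ i, comul (R := k) (q (e k i)) = TensorProduct.map (q : Ex k →ₗ[k] H)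
      (q : Ex k →ₗ[k] H) (cm k i) := by
    intro i
    rw [← comul_e]
    exact (CoalgHomClass.map_comp_comul_apply q (e k i)).symm
  have hA : comul (R := k) A = 1 ⊗ₜ A + A ⊗ₜ 1 := by
    rw [hcom]
    simp [cm, hq0, A]
  have hU : comul (R := k) U = 1 ⊗ₜ U + U ⊗ₜ 1 := by
    rw [hcom]
    simp [cm, hq0, U]
  have hV : comul (R := k) V = 1 ⊗ₜ V + V ⊗ₜ 1 := by
    rw [hcom]
    simp [cm, hq0, V]
  have hB : comul (R := k) B = 1 ⊗ₜ B + B ⊗ₜ 1 + U ⊗ₜ V := by
    rw [hcom]
    simp [cm, hq0, B, U, V]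
  have hact : ∀ i j, act (e k i ⊗ₜ q (e k j)) = tab k i j := by
    intro i j
    rw [← op_eq]
    exact mulL_e k i j
  have hact1 : ∀ i, act (e k i ⊗ₜ 1) = e k i := fun i => act_one _
  have h1 := yd (e k 1) U
  have h2 := yd (e k 1) V
  have h3 := yd (e k 1) B
  rw [hU] at h1
  rw [hV] at h2
  rw [hB] at h3
  have e1 : A * U = U + U * A := by
    simp only [map_add, TensorProduct.map_tmul, LinearMap.mul'_apply, LinearMap.id_coe, id_eq,
      LinearMap.comp_apply, TensorProduct.mk_apply, CoalgHom.coe_toLinearMap, U, hact, hact1,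
      one_mul] at h1
    rw [← h1]
    simp [tab, U, A]
  have e2 : A * V = -V + V * A := by
    simp only [map_add, TensorProduct.map_tmul, LinearMap.mul'_apply, LinearMap.id_coe, id_eq,
      LinearMap.comp_apply, TensorProduct.mk_apply, CoalgHom.coe_toLinearMap, V, hact, hact1,
      one_mul] at h2
    rw [← h2]
    simp [tab, V, A]
  have e3 : A * B = B * A - U * V := by
    simp only [map_add, TensorProduct.map_tmul, LinearMap.mul'_apply, LinearMap.id_coe, id_eq,
      LinearMap.comp_apply, TensorProduct.mk_apply, CoalgHom.coe_toLinearMap, V, B, hact, hact1,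
      one_mul] at h3
    rw [← h3]
    simp [tab, U, V, A, B, sub_eq_add_neg]
  have e4 := congrArg (comul (R := k)) e3
  rw [map_sub, Bialgebra.comul_mul, Bialgebra.comul_mul, Bialgebra.comul_mul, hA, hB, hU, hV] at e4
  simp only [add_mul, mul_add, Algebra.TensorProduct.tmul_mul_tmul, one_mul, mul_one, e1, e2, e3]
    at e4
  have e5 : U ⊗ₜ[k] V + V ⊗ₜ[k] U = 0 := by
    simp only [tmul_add, add_tmul, tmul_sub, sub_tmul, tmul_neg, neg_tmul] at e4
    rw [← sub_eq_zero] at e4
    rw [← e4]
    abel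
  have e6 := congrArg (TensorProduct.map ((act : Ex k ⊗[k] H →ₗ[k] Ex k) ∘ₗ
    TensorProduct.mk k _ _ (e k 1)) ((act : Ex k ⊗[k] H →ₗ[k] Ex k) ∘ₗ
    TensorProduct.mk k _ _ (e k 1))) e5
  simp only [map_add, TensorProduct.map_tmul, LinearMap.comp_apply, TensorProduct.mk_apply,
    CoalgHom.coe_toLinearMap, U, V, hact, map_zero] at e6
  simp only [tab] at e6
  have e7 := congrArg (TensorProduct.lift ((LinearMap.mul k k).compl₁₂
    ((bas k).coord 2) ((bas k).coord 3))) e6
  simp [e, TensorProduct.tmul_neg, TensorProduct.neg_tmul] at e7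

/-- Over every field there is a rack bialgebra which is not a Yetter-Drinfel'd rack over any
bialgebra. -/
theorem result (k : Type u) [Field k] :
    ∃ (C : Type u) (_ : AddCommGroup C) (_ : Module k C) (_ : Coalgebra k C)
      (X : RackBialgebra k C),
      ∀ (H : Type w) [Ring H] [Bialgebra k H], IsEmpty (YDRack X H) :=
  ⟨Ex k, inferInstance, inferInstance, inferInstance, ex k, fun H _ _ => ⟨fun Y => noYD k H Y⟩⟩

end Pool.Agent.Results.MP_abbe90_al.NotYetterDrinfeld
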